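import Pool.Agent.Helper11.Abund.Herm

/-! Averages of a Kähler metric over a torus. -/

open scoped Manifold ContDiff ENNReal Topology ComplexConjugate ComplexOrder
open MeasureTheory Metric

namespace Pool.Agent.Helper11.Abund

open Pool.Agent.Helper16.Abund

theorem append_zero_add {b k : ℕ} (x y : Fin k → ℂ) :
    (Fin.append (0 : Fin b → ℂ) (x + y)) = Fin.append 0 x + Fin.append 0 y := by
  funext i
  refine Fin.addCases (fun i => ?_) (fun i => ?_) i <;> simp

theorem append_zero_smul {b k : ℕ} (c : ℂ) (x : Fin k → ℂ) :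
    (Fin.append (0 : Fin b → ℂ) (c • x)) = c • Fin.append 0 x := by
  funext i
  refine Fin.addCases (fun i => ?_) (fun i => ?_) i <;> simp

theorem append_zero_sum {b k : ℕ} (x : Fin k → ℂ) :
    (Fin.append (0 : Fin b → ℂ) x) = ∑ i, x i • Fin.append 0 (Pi.single i 1) := by
  funext j
  rw [Finset.sum_apply]
  refine Fin.addCases (fun i => ?_) (fun i => ?_) j
  · simp
  · simp [Pi.single_apply]

theorem append_zero_inj {b k : ℕ} {x : Fin k → ℂ} (h : (Fin.append (0 : Fin b → ℂ) x) = 0) :
    x = 0 := by
  funext j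
  have := congrFun h (Fin.natAdd b j)
  simpa using this

/-- expansion of the pairing in the standard basis -/
theorem herm_expand {n b k : ℕ} (G : Matrix (Fin n) (Fin n) ℂ)
    (L : (Fin (b + k) → ℂ) →L[ℂ] (Fin n → ℂ)) (x y : Fin k → ℂ) :
    herm G (L (Fin.append 0 x)) (L (Fin.append 0 y)) =
      ∑ i, ∑ j, herm G (L (Fin.append 0 (Pi.single i 1))) (L (Fin.append 0 (Pi.single j 1))) *
        x i * conj (y j) := by
  have hl : ∀ (s : Finset (Fin k)) (f : Fin k → Fin n → ℂ) (v : Fin n → ℂ),
      herm G (∑ i ∈ s, x i • f i) v = ∑ i ∈ s, x i * herm G (f i) v := by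
    intro s f v
    classical
    induction s using Finset.induction_on with
    | empty => simp [herm]
    | insert a s ha ih =>
      rw [Finset.sum_insert ha, Finset.sum_insert ha, herm_add_left, herm_smul_left, ih]
  have hr : ∀ (s : Finset (Fin k)) (f : Fin k → Fin n → ℂ) (v : Fin n → ℂ),
      herm G v (∑ i ∈ s, y i • f i) = ∑ i ∈ s, conj (y i) * herm G v (f i) := by
    intro s f v
    classical
    induction s using Finset.induction_on with
    | empty => simp [herm]
    | insert a s ha ih =>
      rw [Finset.sum_insert ha, Finset.sum_insert ha, herm_add_right, herm_smul_right, ih]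
  rw [append_zero_sum x, append_zero_sum y, map_sum, map_sum]
  simp only [map_smul]
  rw [hl]
  refine Finset.sum_congr rfl fun i _ => ?_
  rw [hr, Finset.mul_sum]
  refine Finset.sum_congr rfl fun j _ => ?_
  ring

/-- the unit cube -/
def cube (m : ℕ) : Set (Fin m → ℝ) := Set.pi Set.univ (fun _ : Fin m => Set.Icc (0 : ℝ) 1)

theorem cube_compact (m : ℕ) : IsCompact (cube m) := isCompact_univ_pi fun _ => isCompact_Icc

theorem cube_meas (m : ℕ) : MeasurableSet (cube m) := (cube_compact m).isClosed.measurableSet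

theorem cube_vol (m : ℕ) : volume (cube m) = 1 := by
  unfold cube
  rw [volume_pi_pi]
  simp

theorem exists_average {b k : ℕ} {X : Type*} [TopologicalSpace X]
    [ChartedSpace (Fin (b + k) → ℂ) X]
    {g : X → Matrix (Fin (b + k)) (Fin (b + k)) ℂ} (hg : IsKahler (b + k) X g)
    {D : Set (Fin b → ℂ)} (hD : IsOpen D) {ψ : (Fin (b + k) → ℂ) → X}
    (hψ : MDifferentiableOn 𝓘(ℂ, Fin (b + k) → ℂ) 𝓘(ℂ, Fin (b + k) → ℂ) ψ (tube D hD k))
    (hj : ∀ v ∈ tube D hD k, jac (b + k) ψ v ≠ 0)
    {Λ : (Fin b → ℂ) → Fin (2 * k) → Fin k → ℂ} {z : Fin b → ℂ} (hz : z ∈ D) :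
    ∃ A : Matrix (Fin k) (Fin k) ℂ, A.PosDef ∧ ∀ x y : Fin k → ℂ, (herm A x y).im =
      ∫ θ in Set.pi Set.univ (fun _ : Fin (2 * k) => Set.Icc (0 : ℝ) 1),
        kahForm (b + k) g ψ (Fin.append z (comb Λ z θ)) (Fin.append 0 x) (Fin.append 0 y) := by
  -- the path into the tube
  set P : (Fin (2 * k) → ℝ) → (Fin (b + k) → ℂ) := fun θ => Fin.append z (comb Λ z θ) with hP
  have hPt : ∀ θ, P θ ∈ tube D hD k := by
    intro θ
    show base (P θ) ∈ D
    have : base (P θ) = z := by
      funext i
      simp [base, hP]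
    rw [this]
    exact hz
  have hPc : Continuous P := by
    refine continuous_pi fun i => ?_
    refine Fin.addCases (fun i => ?_) (fun i => ?_) i
    · simp only [hP, Fin.append_left]
      exact continuous_const
    · simp only [hP, Fin.append_right, comb, Finset.sum_apply, Pi.smul_apply, smul_eq_mul]
      fun_prop
  -- the entries
  set H : (Fin (2 * k) → ℝ) → (Fin k → ℂ) → (Fin k → ℂ) → ℂ := fun θ x y =>
    herm (g (ψ (P θ))) (dd (b + k) ψ (P θ) (Fin.append 0 x)) (dd (b + k) ψ (P θ) (Fin.append 0 y))
    with hH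
  have him : ∀ x y, Continuous fun θ => (H θ x y).im := by
    intro x y
    have h1 := (hg.smooth _ ψ (tube D hD k).2 hψ (Fin.append 0 x) (Fin.append 0 y)).continuousOn
    exact h1.comp_continuous hPc hPt
  have hre : ∀ x y, Continuous fun θ => (H θ x y).re := by
    intro x y
    have h1 := him (Complex.I • x) y
    have h2 : (fun θ => (H θ x y).re) = fun θ => (H θ (Complex.I • x) y).im := by
      funext θ
      simp only [hH]
      rw [append_zero_smul, map_smul, herm_re_eq]
    rw [h2]
    exact h1
  have hcont : ∀ x y, Continuous fun θ => H θ x y := by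
    intro x y
    have : (fun θ => H θ x y) = fun θ => (((H θ x y).re : ℝ) : ℂ) + (((H θ x y).im : ℝ) : ℂ) * Complex.I := by
      funext θ
      exact (Complex.re_add_im _).symm
    rw [this]
    exact (Complex.continuous_ofReal.comp (hre x y)).add
      ((Complex.continuous_ofReal.comp (him x y)).mul continuous_const)
  have hint : ∀ x y, IntegrableOn (fun θ => H θ x y) (cube (2 * k)) := fun x y =>
    (hcont x y).continuousOn.integrableOn_compact (cube_compact _)
  -- the matrix
  set A : Matrix (Fin k) (Fin k) ℂ := fun i j =>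
    ∫ θ in cube (2 * k), H θ (Pi.single i 1) (Pi.single j 1) with hA
  have hAxy : ∀ x y, herm A x y = ∫ θ in cube (2 * k), H θ x y := by
    intro x y
    have h1 : ∀ θ, H θ x y = ∑ i, ∑ j, H θ (Pi.single i 1) (Pi.single j 1) * (x i * conj (y j)) := by
      intro θ
      simp only [hH]
      rw [herm_expand]
      refine Finset.sum_congr rfl fun i _ => Finset.sum_congr rfl fun j _ => ?_
      ring
    simp only [h1]
    rw [integral_finsetSum _ (fun i _ => integrable_finsetSum _ (fun j _ =>
      (hint (Pi.single i 1) (Pi.single j 1)).mul_const _))]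
    unfold herm
    refine Finset.sum_congr rfl fun i _ => ?_
    rw [integral_finsetSum _ (fun j _ => (hint (Pi.single i 1) (Pi.single j 1)).mul_const _)]
    refine Finset.sum_congr rfl fun j _ => ?_
    rw [integral_mul_const, hA, mul_assoc]
  have hAh : A.IsHermitian := by
    refine Matrix.IsHermitian.ext (fun i j => ?_)
    show conj (A j i) = A i j
    rw [hA]
    simp only
    rw [← integral_conj]
    refine integral_congr_ae (Filter.Eventually.of_forall fun θ => ?_)
    exact herm_conj (hg.posDef _).isHermitian _ _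
  refine ⟨A, posDef_of_herm hAh (fun u hu => ?_), fun x y => ?_⟩
  · rw [hAxy]
    have h1 : (∫ θ in cube (2 * k), H θ u u).re = ∫ θ in cube (2 * k), (H θ u u).re := by
      exact (integral_re (hint u u)).symm
    rw [h1]
    have hpos : ∀ θ, 0 < (H θ u u).re := by
      intro θ
      refine herm_pos (hg.posDef _) ?_
      intro h0
      have hdet : (dd (b + k) ψ (P θ)).det ≠ 0 := hj _ (hPt θ)
      have hinj : Function.Injective (dd (b + k) ψ (P θ)) := by
        have h2 : LinearMap.det (dd (b + k) ψ (P θ) : (Fin (b + k) → ℂ) →ₗ[ℂ] (Fin (b + k) → ℂ)) ≠ 0 := hdet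
        exact (LinearEquiv.ofIsUnitDet (v := Pi.basisFun ℂ _) (v' := Pi.basisFun ℂ _) (f := (dd (b + k) ψ (P θ) : (Fin (b + k) → ℂ) →ₗ[ℂ] (Fin (b + k) → ℂ))) (by
          rw [LinearMap.det_toMatrix]; exact isUnit_iff_ne_zero.2 h2)).injective
      have h3 : Fin.append (0 : Fin b → ℂ) u = 0 := hinj (by rw [h0, map_zero])
      exact hu (append_zero_inj h3)
    rw [setIntegral_pos_iff_support_of_nonneg_ae]
    · have : (Function.support fun θ => (H θ u u).re) ∩ cube (2 * k) = cube (2 * k) := by
        rw [Set.inter_eq_right]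
        intro θ _
        exact (hpos θ).ne'
      rw [this, cube_vol]
      exact one_pos
    · exact Filter.Eventually.of_forall fun θ => (hpos θ).le
    · exact (hre u u).continuousOn.integrableOn_compact (cube_compact _)
  · rw [hAxy]
    exact (integral_im (hint x y)).symm

end Pool.Agent.Helper11.Abund
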