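import Pool.Agent.Helper16.Abund.Defs2

/-! Hermitian pairings, pull back of a Kähler metric to an open set, averages over a torus. -/

open scoped Manifold ContDiff ENNReal Topology ComplexConjugate ComplexOrder
open MeasureTheory Metric

namespace Pool.Agent.Helper11.Abund

open Pool.Agent.Helper16.Abund

section herm

variable {k : ℕ} (A : Matrix (Fin k) (Fin k) ℂ)

theorem herm_add_left (u u' v : Fin k → ℂ) : herm A (u + u') v = herm A u v + herm A u' v := by
  simp [herm, mul_add, add_mul, Finset.sum_add_distrib]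

theorem herm_smul_left (c : ℂ) (u v : Fin k → ℂ) : herm A (c • u) v = c * herm A u v := by
  simp only [herm, Finset.mul_sum, Pi.smul_apply, smul_eq_mul]
  refine Finset.sum_congr rfl fun i _ => Finset.sum_congr rfl fun j _ => ?_
  ring

theorem herm_add_right (u v v' : Fin k → ℂ) : herm A u (v + v') = herm A u v + herm A u v' := by
  simp [herm, mul_add, Finset.sum_add_distrib]

theorem herm_smul_right (c : ℂ) (u v : Fin k → ℂ) : herm A u (c • v) = conj c * herm A u v := by
  simp only [herm, Finset.mul_sum, Pi.smul_apply, smul_eq_mul, map_mul]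
  refine Finset.sum_congr rfl fun i _ => Finset.sum_congr rfl fun j _ => ?_
  ring

theorem herm_conj {A : Matrix (Fin k) (Fin k) ℂ} (hA : A.IsHermitian) (u v : Fin k → ℂ) :
    conj (herm A u v) = herm A v u := by
  simp only [herm, map_sum, map_mul, Complex.conj_conj]
  rw [Finset.sum_comm]
  refine Finset.sum_congr rfl fun i _ => Finset.sum_congr rfl fun j _ => ?_
  have h : conj (A j i) = A i j := hA.apply i j
  rw [h]
  ring

theorem herm_self_im {A : Matrix (Fin k) (Fin k) ℂ} (hA : A.IsHermitian) (u : Fin k → ℂ) :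
    (herm A u u).im = 0 := by
  have h := herm_conj hA u u
  exact Complex.conj_eq_iff_im.1 h

theorem herm_eq_dot (u : Fin k → ℂ) :
    herm A u u = star (star u) ⬝ᵥ (A.mulVec (star u)) := by
  simp only [herm, dotProduct, Matrix.mulVec, Pi.star_apply, star_star, Finset.mul_sum]
  refine Finset.sum_congr rfl fun i _ => Finset.sum_congr rfl fun j _ => ?_
  show A i j * u i * conj (u j) = u i * (A i j * conj (u j))
  ring

theorem herm_pos {A : Matrix (Fin k) (Fin k) ℂ} (hA : A.PosDef) {u : Fin k → ℂ} (hu : u ≠ 0) :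
    0 < (herm A u u).re := by
  rw [herm_eq_dot]
  have hu' : star u ≠ 0 := by simpa using hu
  have h := hA.dotProduct_mulVec_pos hu'
  exact (Complex.lt_def.1 h).1

theorem posDef_of_herm {A : Matrix (Fin k) (Fin k) ℂ} (hA : A.IsHermitian)
    (h : ∀ u : Fin k → ℂ, u ≠ 0 → 0 < (herm A u u).re) : A.PosDef := by
  refine Matrix.PosDef.of_dotProduct_mulVec_pos hA (fun x hx => ?_)
  have hx' : star x ≠ 0 := by simpa using hx
  have h1 := h (star x) hx'
  have h2 := herm_self_im hA (star x)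
  rw [herm_eq_dot, star_star (star x), star_star] at h1 h2
  exact Complex.lt_def.2 ⟨h1, h2.symm⟩

theorem herm_re_eq (u v : Fin k → ℂ) : (herm A u v).re = (herm A (Complex.I • u) v).im := by
  rw [herm_smul_left]
  simp

end herm

section kah

variable {n : ℕ} {X : Type*} [TopologicalSpace X] [ChartedSpace (Fin n → ℂ) X]

theorem kahForm_comp (g : X → Matrix (Fin n) (Fin n) ℂ) {ψ : (Fin n → ℂ) → X}
    {τ : (Fin n → ℂ) → (Fin n → ℂ)} {v : Fin n → ℂ}
    (hψ : MDifferentiableAt 𝓘(ℂ, Fin n → ℂ) 𝓘(ℂ, Fin n → ℂ) ψ (τ v))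
    (hτ : DifferentiableAt ℂ τ v) (x y : Fin n → ℂ) :
    kahForm n g (ψ ∘ τ) v x y = kahForm n g ψ (τ v) (fderiv ℂ τ v x) (fderiv ℂ τ v y) := by
  unfold kahForm
  rw [mfderiv_comp v hψ hτ.mdifferentiableAt, mfderiv_eq_fderiv]
  rfl

/-- the derivative as a linear map of `ℂⁿ` -/
noncomputable def dd (n : ℕ) {X : Type*} [TopologicalSpace X] [ChartedSpace (Fin n → ℂ) X]
    (ψ : (Fin n → ℂ) → X) (z : Fin n → ℂ) : (Fin n → ℂ) →L[ℂ] (Fin n → ℂ) :=
  mfderiv 𝓘(ℂ, Fin n → ℂ) 𝓘(ℂ, Fin n → ℂ) ψ z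

theorem kahForm_eq (g : X → Matrix (Fin n) (Fin n) ℂ) (ψ : (Fin n → ℂ) → X)
    (z u v : Fin n → ℂ) : kahForm n g ψ z u v = (herm (g (ψ z)) (dd n ψ z u) (dd n ψ z v)).im := rfl

/-- the real bilinear form -/
noncomputable def kahL (g : X → Matrix (Fin n) (Fin n) ℂ) (ψ : (Fin n → ℂ) → X) (z : Fin n → ℂ) :
    (Fin n → ℂ) →ₗ[ℝ] (Fin n → ℂ) →ₗ[ℝ] ℝ :=
  LinearMap.mk₂ ℝ (fun u v => kahForm n g ψ z u v)
    (fun u u' v => by rw [kahForm_eq, kahForm_eq, kahForm_eq, map_add, herm_add_left, Complex.add_im])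
    (fun c u v => by
      rw [kahForm_eq, kahForm_eq, show (c • u) = ((c : ℂ) • u) from by
        rw [Complex.coe_smul], map_smul, herm_smul_left]
      simp)
    (fun u v v' => by rw [kahForm_eq, kahForm_eq, kahForm_eq, map_add, herm_add_right, Complex.add_im])
    (fun c u v => by
      rw [kahForm_eq, kahForm_eq, show (c • v) = ((c : ℂ) • v) from by
        rw [Complex.coe_smul], map_smul, herm_smul_right]
      simp)

theorem kahL_apply (g : X → Matrix (Fin n) (Fin n) ℂ) (ψ : (Fin n → ℂ) → X) (z u v : Fin n → ℂ) :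
    kahL g ψ z u v = kahForm n g ψ z u v := rfl

theorem exists_kahOp {g : X → Matrix (Fin n) (Fin n) ℂ} (hg : IsKahler n X g)
    {V : Set (Fin n → ℂ)} (hV : IsOpen V) {ψ : (Fin n → ℂ) → X}
    (hψ : MDifferentiableOn 𝓘(ℂ, Fin n → ℂ) 𝓘(ℂ, Fin n → ℂ) ψ V) :
    ∃ Ω : (Fin n → ℂ) → (Fin n → ℂ) →L[ℝ] (Fin n → ℂ) →L[ℝ] ℝ, ContDiffOn ℝ 1 Ω V ∧
      (∀ v ∈ V, ∀ x y, Ω v x y = kahForm n g ψ v x y) ∧ (∀ v ∈ V, ∀ u, Ω v u u = 0) ∧
      (∀ v ∈ V, ∀ x y z : Fin n → ℂ,
        fderiv ℝ Ω v x y z + fderiv ℝ Ω v y z x + fderiv ℝ Ω v z x y = 0) := by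
  have hsm : ContDiffOn ℝ 1 (fun z => (kahL g ψ z).toContinuousBilinearMap) V := by
    rw [contDiffOn_clm_apply]
    intro x
    rw [contDiffOn_clm_apply]
    intro y
    exact (hg.smooth V ψ hV hψ x y).of_le (by exact_mod_cast le_top)
  refine ⟨fun z => (kahL g ψ z).toContinuousBilinearMap, hsm, fun v _ x y => rfl,
    fun v _ u => ?_, fun v hv x y z => ?_⟩
  · exact herm_self_im (hg.posDef _).isHermitian _
  · have hd : DifferentiableAt ℝ (fun z => (kahL g ψ z).toContinuousBilinearMap) v :=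
      (hsm.differentiableOn (by norm_num)).differentiableAt (hV.mem_nhds hv)
    have key : ∀ a b c : Fin n → ℂ,
        fderiv ℝ (fun z => (kahL g ψ z).toContinuousBilinearMap) v a b c =
          fderiv ℝ (fun z => kahForm n g ψ z b c) v a := by
      intro a b c
      have h1 : HasFDerivAt (fun z => (kahL g ψ z).toContinuousBilinearMap b c)
          (((fderiv ℝ (fun z => (kahL g ψ z).toContinuousBilinearMap) v).flip b).flip c) v :=
        (hd.hasFDerivAt.clm_apply (hasFDerivAt_const b v)).clm_apply (hasFDerivAt_const c v) |>.congr_fderiv (by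
          ext w; simp)
      have h2 : fderiv ℝ (fun z => kahForm n g ψ z b c) v = _ := h1.fderiv
      rw [h2]
      rfl
    have hc := hg.closed V ψ hV hψ v hv x y z
    rw [key, key, key]
    exact hc

end kah

end Pool.Agent.Helper11.Abund
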